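import Pool.Agent.helper7.EP.SpecL

/-!
# Project ep:, module FP: the parity of the block function
-/

set_option autoImplicit false

open Finset

namespace Pool.Agent.EP

theorem FP_cnt (q R x : ℕ) (hq : 0 < q) (hx : x < q) :
    #{u ∈ range (R + 1) | u ≡ x [MOD q]} = R / q + if x ≤ R % q then 1 else 0 := by
  rw [← Nat.count_eq_card_filter_range, Nat.count_modEq_card _ hq, Nat.mod_eq_of_lt hx]
  have h1 := Nat.div_add_mod R q
  have h2 := Nat.mod_lt R hq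
  rcases Nat.lt_or_ge (R % q + 1) q with h | h
  · obtain ⟨h3, h4⟩ := (Nat.div_mod_unique (a := R + 1) (c := R % q + 1) (d := R / q) hq).2
      ⟨by omega, h⟩
    rw [h3, h4]
    simp only [Nat.lt_succ_iff]
  · have h5 : q * (R / q + 1) = q * (R / q) + q := by ring
    obtain ⟨h3, h4⟩ := (Nat.div_mod_unique (a := R + 1) (c := 0) (d := R / q + 1) hq).2
      ⟨by omega, hq⟩
    rw [h3, h4, if_neg (by omega), if_pos (by omega)]

theorem FP_cnt2 (q R x : ℕ) (hx0 : 0 < x) (hx : x < q) (hne : 2 * x ≠ q) :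
    #((range (R + 1)).filter fun u : ℕ => (q : ℤ) ∣ (u : ℤ) - x ∨ (q : ℤ) ∣ (u : ℤ) + x) =
      2 * (R / q) + ((if x ≤ R % q then 1 else 0) + if q - x ≤ R % q then 1 else 0) := by
  have hq : 0 < q := by omega
  have e1 : ∀ u : ℕ, (q : ℤ) ∣ (u : ℤ) - x ↔ u ≡ x [MOD q] := by
    intro u
    rw [← Int.natCast_modEq_iff]
    exact (Int.modEq_iff_dvd.trans (by
      constructor
      · intro h
        have := dvd_neg.2 h
        rwa [neg_sub] at this
      · intro h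
        have := dvd_neg.2 h
        rwa [neg_sub] at this)).symm
  have e2 : ∀ u : ℕ, (q : ℤ) ∣ (u : ℤ) + x ↔ u ≡ q - x [MOD q] := by
    intro u
    rw [← Int.natCast_modEq_iff, Int.modEq_iff_dvd, Nat.cast_sub hx.le]
    constructor
    · intro h
      have h1 : (q : ℤ) - x - u = q - (u + x) := by ring
      rw [h1]
      exact dvd_sub (dvd_refl _) h
    · intro h
      have h1 : (u : ℤ) + x = q - ((q : ℤ) - x - u) := by ring
      rw [h1]
      exact dvd_sub (dvd_refl _) h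
  have e3 : ((range (R + 1)).filter fun u : ℕ =>
      (q : ℤ) ∣ (u : ℤ) - x ∨ (q : ℤ) ∣ (u : ℤ) + x) =
      {u ∈ range (R + 1) | u ≡ x [MOD q]} ∪ {u ∈ range (R + 1) | u ≡ q - x [MOD q]} := by
    rw [← filter_or]
    apply filter_congr
    intro u _
    rw [e1, e2]
  rw [e3, card_union_of_disjoint, FP_cnt q R x hq hx, FP_cnt q R (q - x) hq (by omega)]
  · ring
  · rw [disjoint_left]
    intro u hu hu'
    rw [mem_filter] at hu hu'
    have h1 : x ≡ q - x [MOD q] := hu.2.symm.trans hu'.2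
    rw [Nat.ModEq, Nat.mod_eq_of_lt hx, Nat.mod_eq_of_lt (by omega)] at h1
    omega

theorem FP_tri (r : ℕ) : 8 * tri r + 1 = (2 * r + 1) * (2 * r + 1) := by
  have h : 2 ∣ r * (r + 1) := (Nat.even_mul_succ_self r).two_dvd
  have h1 : 2 * tri r = r * (r + 1) := by
    unfold tri
    exact Nat.mul_div_cancel' h
  have h2 : 8 * tri r = 4 * (r * (r + 1)) := by rw [← h1]; ring
  rw [h2]
  ring

theorem FP_card (hSQ : SQ_stmt) (a n : ℕ) (v : ℤ) (hv : v % 2 = 1)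
    (hd : (2 : ℤ) ^ (a + 3) ∣ v ^ 2 - (8 * (n : ℤ) + 1)) :
    #(rs (2 ^ a) n) = #((range (Nat.sqrt (8 * n + 1) + 1)).filter fun u : ℕ =>
      (2 : ℤ) ^ (a + 2) ∣ (u : ℤ) - v ∨ (2 : ℤ) ^ (a + 2) ∣ (u : ℤ) + v) := by
  have key : ∀ r : ℕ, ((2 : ℤ) ^ (a + 2) ∣ ((2 * r + 1 : ℕ) : ℤ) - v ∨
      (2 : ℤ) ^ (a + 2) ∣ ((2 * r + 1 : ℕ) : ℤ) + v) ↔
      (2 : ℤ) ^ (a + 3) ∣ 8 * ((n : ℤ) - tri r) := by
    intro r
    rw [← hSQ.2 a ((2 * r + 1 : ℕ) : ℤ) v (by push_cast; omega) hv]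
    have h1 : (8 * (tri r : ℤ) + 1) = ((2 * r + 1 : ℕ) : ℤ) ^ 2 := by
      have := FP_tri r
      rw [sq]
      exact_mod_cast this
    have h2 : 8 * ((n : ℤ) - tri r) =
        -(v ^ 2 - (8 * (n : ℤ) + 1)) - (((2 * r + 1 : ℕ) : ℤ) ^ 2 - v ^ 2) := by
      rw [← h1]
      ring
    rw [h2]
    constructor
    · intro h
      exact dvd_sub (dvd_neg.2 hd) h
    · intro h
      have h3 : ((2 * r + 1 : ℕ) : ℤ) ^ 2 - v ^ 2 = -(v ^ 2 - (8 * (n : ℤ) + 1)) -
          (-(v ^ 2 - (8 * (n : ℤ) + 1)) - (((2 * r + 1 : ℕ) : ℤ) ^ 2 - v ^ 2)) := by ring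
      rw [h3]
      exact dvd_sub (dvd_neg.2 hd) h
  have h8 : (2 : ℤ) ^ (a + 3) = 8 * 2 ^ a := by rw [pow_add]; ring
  have key2 : ∀ r : ℕ, tri r ≤ n → ((2 : ℤ) ^ (a + 3) ∣ 8 * ((n : ℤ) - tri r) ↔
      2 ^ a ∣ n - tri r) := by
    intro r hr
    rw [h8, mul_dvd_mul_iff_left (by norm_num), ← Nat.cast_sub hr]
    have : (2 : ℤ) ^ a = ((2 ^ a : ℕ) : ℤ) := by push_cast; ring
    rw [this, Int.natCast_dvd_natCast]
  have hle : ∀ r : ℕ, tri r ≤ n ↔ 2 * r + 1 ≤ Nat.sqrt (8 * n + 1) := by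
    intro r
    rw [Nat.le_sqrt, ← FP_tri]
    omega
  refine card_bij (fun r _ => 2 * r + 1) ?_ ?_ ?_
  · intro r hr
    rw [rs, mem_filter] at hr
    rw [mem_filter, mem_range]
    refine ⟨by have := (hle r).1 hr.2.1; omega, ?_⟩
    rw [key, key2 r hr.2.1]
    exact hr.2.2
  · intro r _ r' _ h
    have h' : 2 * r + 1 = 2 * r' + 1 := h
    omega
  · intro u hu
    rw [mem_filter, mem_range] at hu
    have hodd : u % 2 = 1 := by
      have h4 : (2 : ℤ) ^ (a + 2) = 2 * (2 * 2 ^ a) := by rw [pow_add]; ring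
      rcases hu.2 with h | h
      · rw [h4] at h
        have h5 := dvd_trans (dvd_mul_right 2 _) h
        omega
      · rw [h4] at h
        have h5 := dvd_trans (dvd_mul_right 2 _) h
        omega
    have hu2 : 2 * (u / 2) + 1 = u := by omega
    have h5 : tri (u / 2) ≤ n := by
      rw [hle, hu2]
      omega
    refine ⟨u / 2, ?_, hu2⟩
    rw [rs, mem_filter, mem_range]
    refine ⟨?_, h5, ?_⟩
    · have h6 : u / 2 ≤ tri (u / 2) := by
        have h7 := FP_tri (u / 2)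
        nlinarith
      omega
    · have h6 := hu.2
      rw [← hu2] at h6
      rwa [key, key2 _ h5] at h6

/-- the classes of `v` and `-v` are those of `x` and `-x` -/
theorem FP_classes (q x : ℤ) (v k : ℤ) (hx : v = k * q + x ∨ v = k * q - x) (u : ℤ) :
    (q ∣ u - v ∨ q ∣ u + v) ↔ (q ∣ u - x ∨ q ∣ u + x) := by
  have hk : q ∣ k * q := dvd_mul_left q k
  rcases hx with h | h
  · have h1 : u - v = (u - x) - k * q := by rw [h]; ring
    have h2 : u + v = (u + x) + k * q := by rw [h]; ring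
    rw [h1, h2, dvd_sub_left hk, dvd_add_left hk]
  · have h1 : u - v = (u + x) - k * q := by rw [h]; ring
    have h2 : u + v = (u - x) + k * q := by rw [h]; ring
    rw [h1, h2, dvd_sub_left hk, dvd_add_left hk, or_comm]

theorem FP_par (hSQ : SQ_stmt) (a n x : ℕ) (v k : ℤ) (hv : v % 2 = 1)
    (hd : (2 : ℤ) ^ (a + 3) ∣ v ^ 2 - (8 * (n : ℤ) + 1)) (hx0 : 0 < x) (hxq : x < 2 ^ (a + 2))
    (hne : 2 * x ≠ 2 ^ (a + 2))
    (hx : v = k * 2 ^ (a + 2) + x ∨ v = k * 2 ^ (a + 2) - x) :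
    #(rs (2 ^ a) n) % 2 = ((if x ≤ Nat.sqrt (8 * n + 1) % 2 ^ (a + 2) then 1 else 0) +
      if 2 ^ (a + 2) - x ≤ Nat.sqrt (8 * n + 1) % 2 ^ (a + 2) then 1 else 0) % 2 := by
  rw [FP_card hSQ a n v hv hd]
  have h1 : ((range (Nat.sqrt (8 * n + 1) + 1)).filter fun u : ℕ =>
      (2 : ℤ) ^ (a + 2) ∣ (u : ℤ) - v ∨ (2 : ℤ) ^ (a + 2) ∣ (u : ℤ) + v) =
      ((range (Nat.sqrt (8 * n + 1) + 1)).filter fun u : ℕ =>
      ((2 ^ (a + 2) : ℕ) : ℤ) ∣ (u : ℤ) - x ∨ ((2 ^ (a + 2) : ℕ) : ℤ) ∣ (u : ℤ) + x) := by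
    apply filter_congr
    intro u _
    rw [FP_classes ((2 : ℤ) ^ (a + 2)) x v k hx]
    push_cast
    rfl
  rw [h1, FP_cnt2 _ _ _ hx0 hxq hne]
  omega

theorem FP (hSQ : SQ_stmt) : FP_stmt := by
  intro a n L v hL hL4 hv hd
  have hq2 : 2 ^ (a + 2) = 2 * 2 ^ (a + 1) := by rw [pow_succ]; ring
  have hq4 : 2 ^ (a + 1) = 2 * 2 ^ a := by rw [pow_succ]; ring
  have hqz : (2 : ℤ) ^ (a + 2) = ((2 ^ (a + 2) : ℕ) : ℤ) := by push_cast; ring
  have hqz1 : (2 : ℤ) ^ (a + 1) = ((2 ^ (a + 1) : ℕ) : ℤ) := by push_cast; ring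
  have hkev : ∀ k : ℤ, (k * 2 ^ (a + 2)) % 2 = 0 := by
    intro k
    have : k * 2 ^ (a + 2) = 2 * (k * (2 * 2 ^ a)) := by rw [pow_add]; ring
    rw [this]
    exact Int.mul_emod_right 2 _
  constructor
  · rintro ⟨k, hk⟩ h1 h2
    have hk2 := hkev k
    set d : ℤ := v - k * 2 ^ (a + 2) with hdd
    have hd2 : d % 2 = 1 := by omega
    obtain ⟨x, hx⟩ : ∃ x : ℕ, (x : ℤ) = |d| := ⟨d.natAbs, by simp⟩
    have hx1 : d = x ∨ d = -x := by
      rw [hx]
      exact (abs_choice d).elim (fun h => Or.inl h.symm) (fun h => Or.inr (by rw [h]; ring))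
    have hxL : x < L := by
      rw [← hx] at hk
      exact_mod_cast hk
    have hxodd : x % 2 = 1 := by omega
    rw [FP_par hSQ a n x v k hv hd (by omega) (by omega) (by omega)
      (by rcases hx1 with h | h <;> [left; right] <;> linarith)]
    rw [if_pos (by omega), if_neg (by omega)]
  · rintro ⟨k, hk⟩ h1
    have hk2 := hkev k
    set d : ℤ := v - (k * 2 ^ (a + 2) + 2 ^ (a + 1)) with hdd
    have hz1 : ((2 : ℤ) ^ (a + 1)) % 2 = 0 := by
      rw [pow_succ]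
      exact Int.mul_emod_left _ 2
    have hd2 : d % 2 = 1 := by omega
    obtain ⟨x, hx⟩ : ∃ x : ℕ, (x : ℤ) = 2 ^ (a + 1) + d := by
      refine ⟨(2 ^ (a + 1) + d).toNat, Int.toNat_of_nonneg ?_⟩
      rw [hqz1]
      have := neg_abs_le d
      omega
    have h3 := abs_lt.1 hk
    have hx2 : v = k * 2 ^ (a + 2) + x := by rw [hx]; linarith
    rw [hqz1] at hx
    rw [FP_par hSQ a n x v k hv hd (by omega) (by omega) (by omega) (Or.inl hx2)]
    rcases h1 with h1 | h1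
    · rw [if_neg (by omega), if_neg (by omega)]
    · rw [if_pos (by omega), if_pos (by omega)]

end Pool.Agent.EP
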