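import Pool.Agent.helper71.EP.SpecE

set_option autoImplicit false

open Finset
open Pool.Agent.helper74.TG

namespace Pool.Agent.EP

theorem ERC_mem {Q : ℕ} {r : Σ _ : ℕ, ℕ} (hr : r ∈ Fa Q) :
    1 ≤ r.1 ∧ r.2 < r.1 ∧ Nat.Coprime r.2 r.1 := by
  unfold Fa at hr
  simp only [Finset.mem_sigma, Finset.mem_filter, Finset.mem_range] at hr
  exact ⟨by omega, hr.2.1, hr.2.2⟩

theorem ERC : ERC_stmt := by
  intro Q r s hr hs hodd hk
  obtain ⟨k, hk⟩ := hk
  obtain ⟨hr1, hr2, hrc⟩ := ERC_mem hr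
  obtain ⟨hs1, hs2, hsc⟩ := ERC_mem hs
  obtain ⟨q, a⟩ := r
  obtain ⟨q', a'⟩ := s
  simp only at hr1 hr2 hrc hs1 hs2 hsc hodd hk ⊢
  have hq : (q : ℝ) ≠ 0 := by positivity
  have hq' : (q' : ℝ) ≠ 0 := by positivity
  have h1 : (a' : ℝ) * q = (4 * a + k * q) * q' := by
    field_simp at hk
    linarith
  have h2 : (a' : ℤ) * q = (4 * a + k * q) * q' := by
    exact_mod_cast h1
  have hd1 : (q' : ℤ) ∣ q := by
    have h3 : (q' : ℤ) ∣ (a' : ℤ) * q := ⟨4 * a + k * q, by rw [h2]; ring⟩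
    have h4 : IsCoprime (q' : ℤ) (a' : ℤ) := by
      rw [Nat.isCoprime_iff_coprime]
      exact hsc.symm
    exact h4.dvd_of_dvd_mul_left h3
  have hd2 : (q : ℤ) ∣ q' := by
    have h3 : (q : ℤ) ∣ (4 * a + k * q) * q' := ⟨a', by rw [← h2]; ring⟩
    have h4 : IsCoprime (q : ℤ) (4 * a + k * q : ℤ) := by
      have h5 : IsCoprime (q : ℤ) ((4 * a : ℕ) : ℤ) := by
        rw [Nat.isCoprime_iff_coprime]
        apply Nat.Coprime.mul_right
        · have h6 : Nat.Coprime 2 q := by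
            rw [Nat.coprime_two_left]
            exact Nat.odd_iff.mpr hodd
          have h7 : Nat.Coprime (2 ^ 2) q := Nat.Coprime.pow_left 2 h6
          exact h7.symm
        · exact hrc.symm
      have h8 : IsCoprime (q : ℤ) ((4 * a : ℕ) + q * k : ℤ) := h5.add_mul_left_right k
      have h9 : ((4 * a : ℕ) + q * k : ℤ) = 4 * a + k * q := by push_cast; ring
      rwa [h9] at h8
    exact h4.dvd_of_dvd_mul_left h3
  have he : q' = q := by
    have e1 : q' ∣ q := by exact_mod_cast hd1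
    have e2 : q ∣ q' := by exact_mod_cast hd2
    exact Nat.dvd_antisymm e1 e2
  subst he
  have hqz : (q' : ℤ) ≠ 0 := by positivity
  have h3 : (a' : ℤ) = 4 * a + k * q' := mul_right_cancel₀ hqz h2
  have h4 : a' = (4 * a) % q' := by
    have h5 : (a' : ℤ) = ((4 * a) % q' : ℕ) := by
      push_cast
      have h6 : (a' : ℤ) % q' = a' := Int.emod_eq_of_lt (by positivity) (by exact_mod_cast hs2)
      rw [← h6, h3, Int.add_mul_emod_self_right]
    exact_mod_cast h5
  rw [h4]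

end Pool.Agent.EP
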